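import Mathlib

/-!
# A set-splitting game on an abstract set

Player A has a winning strategy in the game `G(E)` if and only if `E` is countable, and if the
cardinality of `E` is at most that of the continuum then player B has no winning strategy either.

Against a given strategy of A on an uncountable set, B only uses the splittings by countably many
sets `C i` which separate the points of an uncountable set `F`: there are only countably many
positions of this kind, and in every position there is at most one point of `F` that B cannot keep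
for one more round. Against a given strategy of B, A uses an injection of `E` into the Cantor space
whose range contains no perfect set.
-/

set_option autoImplicit false

namespace Pool.Agent.Results.MP_053b7f_lc.Undetermined

open Set Cardinal

universe u

/-- A play of the game `G(E)`. At stage `n` the current set `S n` (`S 0 = E`) is partitioned into two
disjoint sets `P n`, `Q n`, by player A if `n` is even and by player B if `n` is odd, and the other
player chooses one of them as `S (n + 1)`. -/
structure Play (E : Type u) where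
  /-- the sets `E = S₀ ⊇ S₁ ⊇ S₂ ⊇ ⋯` of the play -/
  S : ℕ → Set E
  /-- the first part of the partition of `S n` -/
  P : ℕ → Set E
  /-- the second part of the partition of `S n` -/
  Q : ℕ → Set E
  start : S 0 = Set.univ
  union : ∀ n, P n ∪ Q n = S n
  disj : ∀ n, Disjoint (P n) (Q n)
  step : ∀ n, S (n + 1) = P n ∨ S (n + 1) = Q n

/-- A finite history of a play: the list of the triples `(P i, Q i, S (i + 1))`, `i < n`. -/
abbrev Hist (E : Type u) : Type u := List (Set E × Set E × Set E)

/-- The history of the play `p` at the moment when the set `S n` is going to be split. -/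
def Play.hist {E : Type u} (p : Play E) (n : ℕ) : Hist E :=
  (List.range n).map fun i => (p.P i, p.Q i, p.S (i + 1))

/-- The current set after a history: the set chosen last, and `E` at the beginning. -/
def cur {E : Type u} (h : Hist E) : Set E := (h.getLast?.map fun t => t.2.2).getD Set.univ

/-- A strategy: a rule that, given the finite history of the play, tells the player how to split the
current set and which of the two parts of a partition made by the opponent to choose. -/
structure Strategy (E : Type u) where
  /-- how to split the current set -/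
  split : Hist E → Set E × Set E
  split_union : ∀ h, (split h).1 ∪ (split h).2 = cur h
  split_disj : ∀ h, Disjoint (split h).1 (split h).2
  /-- which part of the opponent's partition to choose -/
  choose : Hist E → Set E → Set E → Set E
  choose_part : ∀ h P Q, choose h P Q = P ∨ choose h P Q = Q

/-- In the play `p` player A, who splits at the even stages and chooses at the odd stages, follows
the strategy `σ`. -/
def FollowsA {E : Type u} (p : Play E) (σ : Strategy E) : Prop :=
  (∀ n, Even n → (p.P n, p.Q n) = σ.split (p.hist n)) ∧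
  (∀ n, Odd n → p.S (n + 1) = σ.choose (p.hist n) (p.P n) (p.Q n))

/-- In the play `p` player B, who splits at the odd stages and chooses at the even stages, follows
the strategy `σ`. -/
def FollowsB {E : Type u} (p : Play E) (σ : Strategy E) : Prop :=
  (∀ n, Odd n → (p.P n, p.Q n) = σ.split (p.hist n)) ∧
  (∀ n, Even n → p.S (n + 1) = σ.choose (p.hist n) (p.P n) (p.Q n))

/-- `σ` is a winning strategy of player A: the intersection of the sets `S n`, `n ≥ 1`, is empty in
every play in which A follows `σ`. -/
def WinningA {E : Type u} (σ : Strategy E) : Prop :=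
  ∀ p : Play E, FollowsA p σ → ⋂ n, p.S (n + 1) = ∅

/-- `σ` is a winning strategy of player B: the intersection of the sets `S n`, `n ≥ 1`, is nonempty
in every play in which B follows `σ`. -/
def WinningB {E : Type u} (σ : Strategy E) : Prop :=
  ∀ p : Play E, FollowsB p σ → (⋂ n, p.S (n + 1)).Nonempty

/-! ### Generalities -/

variable {E : Type u}

@[simp] theorem cur_nil : cur ([] : Hist E) = Set.univ := rfl

@[simp] theorem cur_concat (h : Hist E) (t : Set E × Set E × Set E) : cur (h ++ [t]) = t.2.2 := by
  simp [cur]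

/-- A play from a sequence of moves. -/
theorem exists_play (t : ℕ → Set E × Set E × Set E)
    (h1 : ∀ n, (t n).1 ∪ (t n).2.1 = cur ((List.range n).map t))
    (h2 : ∀ n, Disjoint (t n).1 (t n).2.1)
    (h3 : ∀ n, (t n).2.2 = (t n).1 ∨ (t n).2.2 = (t n).2.1) :
    ∃ p : Play E, (∀ n, p.hist n = (List.range n).map t) ∧ (∀ n, p.P n = (t n).1) ∧
      (∀ n, p.Q n = (t n).2.1) ∧ (∀ n, p.S n = cur ((List.range n).map t)) ∧
      ∀ n, p.S (n + 1) = (t n).2.2 := by
  have h4 : ∀ n, cur ((List.range (n + 1)).map t) = (t n).2.2 := by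
    intro n
    rw [List.range_succ, List.map_append]
    simp
  refine ⟨⟨fun n => cur ((List.range n).map t), fun n => (t n).1, fun n => (t n).2.1, rfl, h1, h2, ?_⟩,
    ?_, fun _ => rfl, fun _ => rfl, fun _ => rfl, h4⟩
  · intro n
    show cur ((List.range (n + 1)).map t) = _ ∨ _
    rw [h4]
    exact h3 n
  · intro n
    unfold Play.hist
    apply List.map_congr_left
    intro i _
    show ((t i).1, (t i).2.1, cur ((List.range (i + 1)).map t)) = t i
    rw [h4]

open Classical in
/-- One stage of a play of the player with the strategy `σ`, who splits at the stages in `e`, against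
an opponent who splits the current set only by the sets `C i`. The number `m` codes the
opponent's decision: which part to choose (first component), or which set `C i` to use (second
component). -/
noncomputable def move (e : ℕ → Prop) (σ : Strategy E) (C : ℕ → Set E) (h : Hist E) (m : Bool × ℕ) :
    Set E × Set E × Set E :=
  if e h.length then
    ((σ.split h).1, (σ.split h).2, if m.1 then (σ.split h).1 else (σ.split h).2)
  else (cur h ∩ C m.2, cur h \ C m.2, σ.choose h (cur h ∩ C m.2) (cur h \ C m.2))

/-- The history produced by a list of decisions. -/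
noncomputable def reach (e : ℕ → Prop) (σ : Strategy E) (C : ℕ → Set E) (l : List (Bool × ℕ)) :
    Hist E :=
  l.foldl (fun h m => h ++ [move e σ C h m]) []

theorem reach_concat (e : ℕ → Prop) (σ : Strategy E) (C : ℕ → Set E) (l : List (Bool × ℕ))
    (m : Bool × ℕ) :
    reach e σ C (l ++ [m]) = reach e σ C l ++ [move e σ C (reach e σ C l) m] := by
  simp [reach]

theorem length_reach (e : ℕ → Prop) (σ : Strategy E) (C : ℕ → Set E) (l : List (Bool × ℕ)) :
    (reach e σ C l).length = l.length := by
  induction l using List.reverseRecOn with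
  | nil => rfl
  | append_singleton l m ih => rw [reach_concat]; simp [ih]

theorem move_union (e : ℕ → Prop) (σ : Strategy E) (C : ℕ → Set E) (h : Hist E) (m : Bool × ℕ) :
    (move e σ C h m).1 ∪ (move e σ C h m).2.1 = cur h := by
  unfold move
  split_ifs
  · exact σ.split_union h
  · exact σ.split_union h
  · exact inter_union_sdiff _ _

theorem move_disj (e : ℕ → Prop) (σ : Strategy E) (C : ℕ → Set E) (h : Hist E) (m : Bool × ℕ) :
    Disjoint (move e σ C h m).1 (move e σ C h m).2.1 := by
  unfold move
  split_ifs
  · exact σ.split_disj h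
  · exact σ.split_disj h
  · exact disjoint_sdiff_inter.symm

theorem move_part (e : ℕ → Prop) (σ : Strategy E) (C : ℕ → Set E) (h : Hist E) (m : Bool × ℕ) :
    (move e σ C h m).2.2 = (move e σ C h m).1 ∨ (move e σ C h m).2.2 = (move e σ C h m).2.1 := by
  unfold move
  split_ifs
  · exact Or.inl rfl
  · exact Or.inr rfl
  · exact σ.choose_part _ _ _

/-- The play with a given sequence of decisions of the opponent. -/
theorem exists_play_of_decisions (e : ℕ → Prop) (σ : Strategy E) (C : ℕ → Set E)
    (l : ℕ → List (Bool × ℕ)) (m : ℕ → Bool × ℕ) (hl0 : l 0 = [])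
    (hl : ∀ n, l (n + 1) = l n ++ [m n]) :
    ∃ p : Play E, (∀ n, p.hist n = reach e σ C (l n)) ∧
      (∀ n, p.S n = cur (reach e σ C (l n))) ∧
      (∀ n, (p.P n, p.Q n, p.S (n + 1)) = move e σ C (reach e σ C (l n)) (m n)) ∧
      (∀ n, e n → (p.P n, p.Q n) = σ.split (p.hist n)) ∧
      (∀ n, ¬ e n → p.S (n + 1) = σ.choose (p.hist n) (p.P n) (p.Q n)) := by
  have hlen : ∀ n, (l n).length = n := by
    intro n
    induction n with
    | zero => rw [hl0]; rfl
    | succ n ih => rw [hl]; simp [ih]
  set t : ℕ → Set E × Set E × Set E := fun n => move e σ C (reach e σ C (l n)) (m n) with ht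
  have hh : ∀ n, (List.range n).map t = reach e σ C (l n) := by
    intro n
    induction n with
    | zero => rw [hl0]; rfl
    | succ n ih =>
      rw [List.range_succ, List.map_append, ih, hl, reach_concat]
      rfl
  obtain ⟨p, p1, p2, p3, p4, p5⟩ := exists_play t
    (fun n => by rw [hh]; exact move_union _ _ _ _ _)
    (fun n => move_disj _ _ _ _ _) (fun n => move_part _ _ _ _ _)
  refine ⟨p, fun n => by rw [p1, hh], fun n => by rw [p4, hh], fun n => ?_, fun n hn => ?_,
    fun n hn => ?_⟩
  · rw [p2, p3, p5]
  · rw [p2, p3, p1, hh]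
    have : e (reach e σ C (l n)).length := by rw [length_reach, hlen]; exact hn
    simp only [ht, move, if_pos this]
  · rw [p2, p3, p1, hh, p5]
    have : ¬ e (reach e σ C (l n)).length := by rw [length_reach, hlen]; exact hn
    simp only [ht, move, if_neg this]

/-! ### Player A cannot win on an uncountable set -/

theorem exists_keep (σ : Strategy E) [Uncountable E] :
    ∃ p : Play E, FollowsA p σ ∧ (⋂ n, p.S (n + 1)).Nonempty := by
  classical
  -- an uncountable set `F` and an injection of `F` into the Cantor space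
  obtain ⟨F, hF⟩ : ∃ F : Set E, #F = ℵ_ 1 := by
    rw [← Cardinal.le_mk_iff_exists_set]
    exact (Cardinal.aleph_one_le_iff).2 (Cardinal.aleph0_lt_mk_iff.2 inferInstance)
  have hFc : Cardinal.lift.{0} #F ≤ Cardinal.lift.{u} #(ℕ → Bool) := by
    rw [hF]
    have h1 : #(ℕ → Bool) = 𝔠 := by simp
    rw [h1]
    simpa using Cardinal.aleph_one_le_continuum
  obtain ⟨g⟩ := Cardinal.lift_mk_le'.1 hFc
  set C : ℕ → Set E := fun i => {x | ∃ h : x ∈ F, g ⟨x, h⟩ i = true} with hC
  set H := reach Even σ C with hH
  -- the bad points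
  set Bad : List (Bool × ℕ) → Set E := fun l =>
    {x | x ∈ F ∧ x ∈ cur (H l) ∧ ∀ i, x ∉ σ.choose (H l) (cur (H l) ∩ C i) (cur (H l) \ C i)} with hBad
  have hsub : ∀ l, (Bad l).Subsingleton := by
    intro l x hx y hy
    by_contra hxy
    obtain ⟨hxF, hx1, hx2⟩ := hx
    obtain ⟨hyF, hy1, hy2⟩ := hy
    have h1 : g ⟨x, hxF⟩ ≠ g ⟨y, hyF⟩ := fun h => hxy (congrArg Subtype.val (g.injective h))
    obtain ⟨i, hi⟩ := Function.ne_iff.1 h1
    have hxC : x ∈ C i ↔ g ⟨x, hxF⟩ i = true := ⟨fun ⟨_, h⟩ => h, fun h => ⟨hxF, h⟩⟩
    have hyC : y ∈ C i ↔ g ⟨y, hyF⟩ i = true := ⟨fun ⟨_, h⟩ => h, fun h => ⟨hyF, h⟩⟩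
    have hx3 := hx2 i
    have hy3 := hy2 i
    rcases σ.choose_part (H l) (cur (H l) ∩ C i) (cur (H l) \ C i) with h | h
    · rw [h] at hx3 hy3
      have hx4 : x ∉ C i := fun h' => hx3 ⟨hx1, h'⟩
      have hy4 : y ∉ C i := fun h' => hy3 ⟨hy1, h'⟩
      rw [hxC] at hx4
      rw [hyC] at hy4
      apply hi
      rw [Bool.not_eq_true] at hx4 hy4
      rw [hx4, hy4]
    · rw [h] at hx3 hy3
      have hx4 : x ∈ C i := by by_contra h'; exact hx3 ⟨hx1, h'⟩
      have hy4 : y ∈ C i := by by_contra h'; exact hy3 ⟨hy1, h'⟩
      rw [hxC] at hx4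
      rw [hyC] at hy4
      exact hi (hx4.trans hy4.symm)
  have hcount : (⋃ l, Bad l).Countable := countable_iUnion fun l => (hsub l).countable
  obtain ⟨x, hxF, hx⟩ : ∃ x ∈ F, x ∉ ⋃ l, Bad l := by
    by_contra hcon
    push Not at hcon
    have h1 : F.Countable := hcount.mono hcon
    have h2 : #F ≤ ℵ₀ := Cardinal.le_aleph0_iff_set_countable.2 h1
    rw [hF] at h2
    exact absurd h2 (not_le.2 Cardinal.aleph0_lt_aleph_one)
  -- B can keep `x`
  have hnext : ∀ l : {l : List (Bool × ℕ) // x ∈ cur (H l)}, ∃ m : Bool × ℕ,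
      x ∈ cur (H (l.1 ++ [m])) := by
    rintro ⟨l, hl⟩
    simp only
    by_cases he : Even (H l).length
    · have h1 : x ∈ (σ.split (H l)).1 ∪ (σ.split (H l)).2 := by rw [σ.split_union]; exact hl
      rcases h1 with h1 | h1
      · refine ⟨(true, 0), ?_⟩
        rw [hH, reach_concat, cur_concat]
        simp only [move]
        rw [if_pos he]
        simpa using h1
      · refine ⟨(false, 0), ?_⟩
        rw [hH, reach_concat, cur_concat]
        simp only [move]
        rw [if_pos he]
        simpa using h1
    · have h1 : x ∉ Bad l := fun h => hx (mem_iUnion.2 ⟨l, h⟩)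
      have h2 : ∃ i, x ∈ σ.choose (H l) (cur (H l) ∩ C i) (cur (H l) \ C i) := by
        by_contra hcon
        push Not at hcon
        exact h1 ⟨hxF, hl, hcon⟩
      obtain ⟨i, hi⟩ := h2
      refine ⟨(true, i), ?_⟩
      rw [hH, reach_concat, cur_concat]
      simp only [move]
      rw [if_neg he]
      exact hi
  choose m hm using hnext
  set s : ℕ → {l : List (Bool × ℕ) // x ∈ cur (H l)} :=
    fun n => Nat.rec ⟨[], by simp [hH, reach]⟩ (fun _ s => ⟨s.1 ++ [m s], hm s⟩) n with hs
  obtain ⟨p, -, p2, -, p4, p5⟩ := exists_play_of_decisions Even σ C (fun n => (s n).1)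
    (fun n => m (s n)) rfl (fun n => rfl)
  refine ⟨p, ⟨p4, fun n hn => p5 n (Nat.not_even_iff_odd.2 hn)⟩, x, ?_⟩
  rw [mem_iInter]
  intro n
  rw [p2]
  exact (s (n + 1)).2

/-! ### Player A wins on a countable set -/

theorem exists_winningA [Countable E] : ∃ σ : Strategy E, WinningA σ := by
  classical
  rcases isEmpty_or_nonempty E with hE | hE
  · exact ⟨⟨fun h => (cur h, ∅), fun h => by simp, fun h => by simp, fun _ P _ => P,
      fun _ _ _ => Or.inl rfl⟩, fun p _ => Set.eq_empty_of_isEmpty _⟩
  obtain ⟨e, he⟩ := exists_surjective_nat E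
  refine ⟨⟨fun h => (cur h, ∅), fun h => by simp, fun h => by simp,
    fun h P Q => if e (h.length / 2) ∈ P then Q else P, fun h P Q => ?_⟩, fun p hp => ?_⟩
  · split_ifs
    · exact Or.inr rfl
    · exact Or.inl rfl
  · rw [eq_empty_iff_forall_notMem]
    intro x hx
    obtain ⟨j, rfl⟩ := he x
    rw [mem_iInter] at hx
    have h1 := hx (2 * j + 1)
    have h2 := hp.2 (2 * j + 1) ⟨j, rfl⟩
    have h3 : (p.hist (2 * j + 1)).length / 2 = j := by
      unfold Play.hist
      rw [List.length_map, List.length_range]
      omega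
    simp only [h3] at h2
    rw [h2] at h1
    split_ifs at h1 with h4
    · exact (Set.disjoint_left.1 (p.disj (2 * j + 1)) h4) h1
    · exact h4 h1

/-! ### Player B cannot win on a set of at most continuum many points -/

/-- Injective choice from large sets. -/
theorem exists_injective_choice {I X : Type} (A : I → Set X) (h : ∀ i, #I ≤ #(A i)) :
    ∃ g : I → X, Function.Injective g ∧ ∀ i, g i ∈ A i := by
  classical
  obtain ⟨r, wo, hr⟩ := Cardinal.exists_ord_eq I
  have key : ∀ i (G : ∀ j, r j i → X),
      (A i \ Set.range (fun j : {j // r j i} => G j.1 j.2)).Nonempty := by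
    intro i G
    by_contra hcon
    rw [not_nonempty_iff_eq_empty, sdiff_eq_empty] at hcon
    have h1 : #(A i) ≤ #{j // r j i} := (Cardinal.mk_le_mk_of_subset hcon).trans Cardinal.mk_range_le
    have h2 : #{j // r j i} < #I :=
       Cardinal.card_typein_lt (r := r) i hr
    exact absurd ((h i).trans h1) (not_le.2 h2)
  set F : ∀ i, (∀ j, r j i → X) → X := fun i G => (key i G).some with hF
  set g : I → X := wo.wf.fix F with hg
  have hfix : ∀ i, g i = F i (fun j _ => g j) := fun i => wo.wf.fix_eq F i
  have hmem : ∀ i, g i ∈ A i \ Set.range (fun j : {j // r j i} => g j.1) := by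
    intro i
    rw [hfix i]
    exact (key i (fun j _ => g j)).some_mem
  have hne : ∀ i j, r j i → g j ≠ g i := fun i j hji hjg => (hmem i).2 ⟨⟨j, hji⟩, hjg⟩
  refine ⟨g, fun i j hij => ?_, fun i => (hmem i).1⟩
  rcases trichotomous_of r i j with h1 | h1 | h1
  · exact absurd hij (hne j i h1)
  · exact h1
  · exact absurd hij.symm (hne i j h1)

theorem mk_cantor : #(ℕ → Bool) = 𝔠 := by simp

/-- There are only continuum many continuous self-maps of the Cantor space. -/
theorem mk_continuous : #{f : (ℕ → Bool) → (ℕ → Bool) // Continuous f ∧ Function.Injective f} ≤ 𝔠 := by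
  obtain ⟨D, hDc, hD⟩ := TopologicalSpace.exists_countable_dense (ℕ → Bool)
  have h1 : Function.Injective (fun (f : {f : (ℕ → Bool) → (ℕ → Bool) //
      Continuous f ∧ Function.Injective f}) (d : D) => f.1 d.1) := by
    rintro ⟨f, hf⟩ ⟨f', hf'⟩ hff
    apply Subtype.ext
    exact Continuous.ext_on hD hf.1 hf'.1 fun d hd => congrFun hff ⟨d, hd⟩
  refine (Cardinal.mk_le_of_injective h1).trans ?_
  have := hDc.to_subtype
  rw [← Cardinal.power_def, mk_cantor]
  calc 𝔠 ^ #D ≤ 𝔠 ^ ℵ₀ := Cardinal.power_le_power_left Cardinal.continuum_ne_zero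
        (Cardinal.mk_le_aleph0)
    _ = 𝔠 := Cardinal.continuum_power_aleph0

/-- An injection of the Cantor space whose range contains no perfect set. -/
theorem exists_bernstein : ∃ φ : (ℕ → Bool) → (ℕ → Bool), Function.Injective φ ∧
    ∀ f : (ℕ → Bool) → (ℕ → Bool), Continuous f → Function.Injective f →
      ∃ c, f c ∉ Set.range φ := by
  set I := {f : (ℕ → Bool) → (ℕ → Bool) // Continuous f ∧ Function.Injective f} ⊕ (ℕ → Bool) with hI
  have hIc : #I ≤ 𝔠 := by
    rw [hI, Cardinal.mk_sum, Cardinal.lift_id, Cardinal.lift_id, mk_cantor]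
    calc _ ≤ 𝔠 + 𝔠 := add_le_add mk_continuous le_rfl
      _ = 𝔠 := Cardinal.continuum_add_self
  set A : I → Set (ℕ → Bool) := fun i => Sum.elim (fun f => Set.range f.1) (fun _ => Set.univ) i with hA
  obtain ⟨g, hg, hgA⟩ := exists_injective_choice A (by
    rintro (f | x)
    · refine hIc.trans ?_
      show _ ≤ #(Set.range f.1)
      rw [Cardinal.mk_range_eq f.1 f.2.2, mk_cantor]
    · refine hIc.trans ?_
      show _ ≤ #(Set.univ : Set (ℕ → Bool))
      rw [Cardinal.mk_univ, mk_cantor])
  refine ⟨fun x => g (Sum.inr x), fun x y hxy => Sum.inr_injective (hg hxy), fun f hf hf' => ?_⟩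
  obtain ⟨c, hc⟩ : g (Sum.inl ⟨f, hf, hf'⟩) ∈ Set.range f := hgA (Sum.inl ⟨f, hf, hf'⟩)
  refine ⟨c, ?_⟩
  rintro ⟨x, hx⟩
  have h1 : g (Sum.inr x) = g (Sum.inl ⟨f, hf, hf'⟩) := by rw [← hc]; exact hx
  exact absurd (hg h1) (by simp)

/-- A map of the Cantor space each coordinate of which depends only on the preceding
coordinates of the argument is continuous. -/
theorem continuous_of_local (f : (ℕ → Bool) → (ℕ → Bool))
    (h : ∀ (c c' : ℕ → Bool) (k : ℕ), (∀ i < k, c i = c' i) → f c k = f c' k) : Continuous f := by
  refine continuous_pi fun k => ?_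
  have h1 : (fun c => f c k) = (fun d : Fin k → Bool =>
      f (fun i => if hi : i < k then d ⟨i, hi⟩ else false) k) ∘ (fun c (i : Fin k) => c i) := by
    funext c
    apply h
    intro i hi
    simp [hi]
  rw [h1]
  exact continuous_of_discreteTopology.comp (continuous_pi fun i => continuous_apply _)

theorem not_winningB (hE : Cardinal.lift.{0} #E ≤ Cardinal.lift.{u} #(ℕ → Bool)) (σ : Strategy E) :
    ¬ WinningB σ := by
  classical
  intro hσ
  obtain ⟨ι⟩ := Cardinal.lift_mk_le'.1 hE
  obtain ⟨φ, hφ, hφf⟩ := exists_bernstein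
  set C : ℕ → Set E := fun i => {x | φ (ι x) i = true} with hC
  set H := reach Odd σ C with hH
  -- the decisions of player A
  set m : (ℕ → Bool) → ℕ → Bool × ℕ := fun c n => (decide (Odd n) && c (n / 2), n / 2) with hm
  set l : (ℕ → Bool) → ℕ → List (Bool × ℕ) := fun c n => (List.range n).map (m c) with hl
  have hl0 : ∀ c, l c 0 = [] := fun c => rfl
  have hl1 : ∀ c n, l c (n + 1) = l c n ++ [m c n] := by
    intro c n
    simp only [hl]
    rw [List.range_succ, List.map_append]
    rfl
  have hlen : ∀ c n, (l c n).length = n := fun c n => by simp [hl]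
  have hx : ∀ c : ℕ → Bool, ∃ x : E, ∀ n, x ∈ cur (H (l c n)) := by
    intro c
    obtain ⟨p, -, p2, -, p4, p5⟩ := exists_play_of_decisions Odd σ C (l c) (m c) (hl0 c) (hl1 c)
    obtain ⟨x, hx⟩ := hσ p ⟨p4, fun n hn => p5 n (Nat.not_odd_iff_even.2 hn)⟩
    rw [mem_iInter] at hx
    refine ⟨x, fun n => ?_⟩
    rcases n with _ | n
    · rw [hl0, hH]
      simp [reach]
    · rw [← p2]
      exact hx n
  choose x hx using hx
  -- locality of the decisions
  have hloc : ∀ (c c' : ℕ → Bool) (k : ℕ), (∀ i < k, c i = c' i) →
      l c (2 * k + 1) = l c' (2 * k + 1) := by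
    intro c c' k hk
    simp only [hl]
    apply List.map_congr_left
    intro i hi
    rw [List.mem_range] at hi
    simp only [hm]
    by_cases ho : Odd i
    · rw [hk (i / 2) (by obtain ⟨j, rfl⟩ := ho; omega)]
    · simp [ho]
  have hloc' : ∀ (c c' : ℕ → Bool) (k : ℕ), (∀ i < k, c i = c' i) → l c (2 * k) = l c' (2 * k) := by
    intro c c' k hk
    simp only [hl]
    apply List.map_congr_left
    intro i hi
    rw [List.mem_range] at hi
    simp only [hm]
    rw [hk (i / 2) (by omega)]
  have hfloc : ∀ (c c' : ℕ → Bool) (k : ℕ), (∀ i < k, c i = c' i) →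
      φ (ι (x c)) k = φ (ι (x c')) k := by
    intro c c' k hk
    have h1 := hx c (2 * k + 1)
    have h2 := hx c' (2 * k + 1)
    rw [← hloc c c' k hk, hl1, hH, reach_concat, cur_concat, ← hH] at h2
    rw [hl1, hH, reach_concat, cur_concat, ← hH] at h1
    have hodd : ¬ Odd (H (l c (2 * k))).length := by
      rw [hH, length_reach, hlen]
      exact Nat.not_odd_iff_even.2 ⟨k, by ring⟩
    have hk2 : (m c (2 * k)).2 = k := by
      simp only [hm]
      omega
    simp only [move, if_neg hodd, hk2] at h1 h2
    have hxC : ∀ y : E, y ∈ C k ↔ φ (ι y) k = true := fun y => Iff.rfl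
    rcases σ.choose_part (H (l c (2 * k))) (cur (H (l c (2 * k))) ∩ C k)
      (cur (H (l c (2 * k))) \ C k) with h | h
    · rw [h] at h1 h2
      rw [(hxC _).1 h1.2, (hxC _).1 h2.2]
    · rw [h] at h1 h2
      have h3 := h1.2
      have h4 := h2.2
      rw [hxC, Bool.not_eq_true] at h3 h4
      rw [h3, h4]
  have hinj : Function.Injective x := by
    intro c c' hcc
    by_contra hne
    have hex : ∃ k, c k ≠ c' k := Function.ne_iff.1 hne
    set k := Nat.find hex with hkdef
    have hk1 : c k ≠ c' k := Nat.find_spec hex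
    have hk2 : ∀ i < k, c i = c' i := fun i hi => not_not.1 (Nat.find_min hex hi)
    have h1 := hx c (2 * k + 1 + 1)
    have h2 := hx c' (2 * k + 1 + 1)
    rw [hl1, hH, reach_concat, cur_concat, ← hH] at h1 h2
    rw [← hloc c c' k hk2] at h2
    have hodd : Odd (H (l c (2 * k + 1))).length := by
      rw [hH, length_reach, hlen]
      exact ⟨k, rfl⟩
    have hmc : ∀ d : ℕ → Bool, (m d (2 * k + 1)).1 = d k := by
      intro d
      have ho : Odd (2 * k + 1) := ⟨k, rfl⟩
      have h5 : (2 * k + 1) / 2 = k := by omega
      simp only [hm, h5, decide_eq_true ho, Bool.true_and]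
    simp only [move, if_pos hodd, hmc] at h1 h2
    rw [← hcc] at h2
    have hdis := Set.disjoint_left.1 (σ.split_disj (H (l c (2 * k + 1))))
    rcases Bool.eq_false_or_eq_true (c k) with h3 | h3
    · have h4 : c' k = false := by
        rcases Bool.eq_false_or_eq_true (c' k) with h4 | h4
        · exact absurd (h3.trans h4.symm) hk1
        · exact h4
      rw [h3, if_pos rfl] at h1
      rw [h4] at h2
      exact hdis h1 (by simpa using h2)
    · have h4 : c' k = true := by
        rcases Bool.eq_false_or_eq_true (c' k) with h4 | h4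
        · exact h4
        · exact absurd (h3.trans h4.symm) hk1
      rw [h3] at h1
      rw [h4, if_pos rfl] at h2
      exact hdis h2 (by simpa using h1)
  obtain ⟨c, hc⟩ := hφf (fun c => φ (ι (x c))) (continuous_of_local _ hfloc)
    (hφ.comp (ι.injective.comp hinj))
  exact hc ⟨_, rfl⟩

/-- **Theorem.** Player A has a winning strategy in `G(E)` if and only if `E` is countable. If the
cardinality of `E` is at most that of the continuum, player B has no winning strategy. -/
theorem result :
    (∀ E : Type u, (∃ σ : Strategy E, WinningA σ) ↔ Countable E) ∧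
    (∀ E : Type u, #E ≤ 𝔠 → ¬ ∃ σ : Strategy E, WinningB σ) := by
  refine ⟨fun E => ⟨fun ⟨σ, hσ⟩ => ?_, fun h => exists_winningA⟩, fun E hE ⟨σ, hσ⟩ => ?_⟩
  · by_contra hcon
    have : Uncountable E := not_countable_iff.1 hcon
    obtain ⟨p, hp, hne⟩ := exists_keep σ
    rw [hσ p hp] at hne
    exact Set.not_nonempty_empty hne
  · refine not_winningB ?_ σ hσ
    rw [mk_cantor]
    simpa using hE

end Pool.Agent.Results.MP_053b7f_lc.Undetermined
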